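import Pool.Agent.TH982.MA.RisingSun

/-!
# Maximal averages and moments: the abstract argument
-/

open MeasureTheory Set Filter Topology

namespace Pool.Agent.TH982.MA

noncomputable section

/-- The `2k`-th power of `z`. -/
def pw (z : ℝ → ℝ) (k : ℝ) : ℝ → ℝ := fun t => z t ^ (2 * k)

/-- The integral from `0`. -/
def Fi (f : ℝ → ℝ) (T : ℝ) : ℝ := ∫ t in (0:ℝ)..T, f t

/-- The data used of `|zeta(1/2+it)|`. -/
structure Data (z : ℝ → ℝ) : Prop where
  cont : Continuous z
  nn : ∀ t, 0 ≤ z t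
  second : ∃ C : ℝ, 0 < C ∧ ∀ᶠ T : ℝ in atTop, ∫ t in (0:ℝ)..T, z t ^ 2 ≤ C * (T * Real.log T)
  lower : ∀ k : ℝ, 1 ≤ k → ∃ c : ℝ, 0 < c ∧ ∀ᶠ T : ℝ in atTop,
    c * (T * Real.log T ^ (k ^ 2)) ≤ ∫ t in (0:ℝ)..T, z t ^ (2 * k)

variable {z : ℝ → ℝ}

lemma pw_cont (hz : Data z) {k : ℝ} (hk : 1 < k) : Continuous (pw z k) :=
  hz.cont.rpow_const fun _ => Or.inr (by linarith)

lemma pw_nn (hz : Data z) (k t : ℝ) : 0 ≤ pw z k t := Real.rpow_nonneg (hz.nn t) _

lemma Fi_nn {f : ℝ → ℝ} (hf : ∀ t, 0 ≤ f t) {T : ℝ} (hT : 0 ≤ T) : 0 ≤ Fi f T :=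
  intervalIntegral.integral_nonneg hT fun t _ => hf t

lemma Fi_mono {f : ℝ → ℝ} (hc : Continuous f) (hf : ∀ t, 0 ≤ f t) {S T : ℝ} (hST : S ≤ T) :
    Fi f S ≤ Fi f T := by
  have := intervalIntegral.integral_add_adjacent_intervals (hc.intervalIntegrable 0 S)
    (hc.intervalIntegrable S T) (μ := volume)
  have h2 : 0 ≤ ∫ t in S..T, f t := intervalIntegral.integral_nonneg hST fun t _ => hf t
  unfold Fi
  linarith

/-- the part of the integral off the set -/
lemma off_le (hz : Data z) {k c T : ℝ} (hk : 1 < k) (hc : 0 < c) (hT : 0 ≤ T) :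
    ∫ t in Icc (0:ℝ) T \ Start (pw z k) c T, pw z k t ≤
      c ^ (1 - 1 / k) * ∫ t in (0:ℝ)..T, z t ^ 2 := by
  have hk0 : 0 < k := by linarith
  have hpc := pw_cont hz hk
  have hm : MeasurableSet (Icc (0:ℝ) T \ Start (pw z k) c T) :=
    measurableSet_Icc.diff (identity hpc hT c).1
  have hsub : Icc (0:ℝ) T \ Start (pw z k) c T ⊆ Icc 0 T := sdiff_subset
  have hzc : Continuous fun t => c ^ (1 - 1 / k) * z t ^ 2 := continuous_const.mul (hz.cont.pow 2)
  have h1 : ∫ t in Icc (0:ℝ) T \ Start (pw z k) c T, pw z k t ≤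
      ∫ t in Icc (0:ℝ) T \ Start (pw z k) c T, c ^ (1 - 1 / k) * z t ^ 2 := by
    refine setIntegral_mono_on_ae ?_ ?_ hm ?_
    · exact (hpc.continuousOn.integrableOn_compact isCompact_Icc).mono_set hsub
    · exact (hzc.continuousOn.integrableOn_compact isCompact_Icc).mono_set hsub
    · have nT : ∀ᵐ x : ℝ, x ≠ T := by simp [ae_iff, measure_singleton]
      filter_upwards [nT] with t ht htm
      have h := le_off hpc htm (lt_of_le_of_ne htm.1.2 ht)
      have h0 := hz.nn t
      have e : z t ^ 2 = (pw z k t) ^ (1 / k) := by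
        unfold pw
        rw [← Real.rpow_mul h0, show 2 * k * (1 / k) = 2 by field_simp]
        norm_cast
      rw [e]
      have hp := pw_nn hz k t
      rcases hp.eq_or_lt with h' | h'
      · rw [← h']
        have : (0:ℝ) ^ (1 / k) = 0 := Real.zero_rpow (by positivity)
        rw [this]; simp
      · calc pw z k t = pw z k t ^ (1 - 1 / k) * pw z k t ^ (1 / k) := by
              rw [← Real.rpow_add h']; simp
          _ ≤ c ^ (1 - 1 / k) * pw z k t ^ (1 / k) := by
              refine mul_le_mul_of_nonneg_right ?_ (Real.rpow_nonneg hp _)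
              refine Real.rpow_le_rpow hp h ?_
              rw [sub_nonneg, div_le_one hk0]; exact hk.le
  refine h1.trans ?_
  rw [intervalIntegral.integral_of_le hT, ← integral_Icc_eq_integral_Ioc,
    ← integral_const_mul]
  refine setIntegral_mono_set (hzc.continuousOn.integrableOn_compact isCompact_Icc) ?_
    hsub.eventuallyLE
  filter_upwards with t
  exact mul_nonneg (Real.rpow_nonneg hc.le _) (sq_nonneg _)

/-- The decomposition that is used throughout: `F(T) = c V + m + R`. -/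
lemma decomp (hz : Data z) {k c T : ℝ} (hk : 1 < k) (hc : 0 < c) (hT : 0 ≤ T) :
    ∃ m R b : ℝ, 0 ≤ m ∧ 0 ≤ R ∧ 0 ≤ b ∧ b ≤ T ∧
      R ≤ c ^ (1 - 1 / k) * ∫ t in (0:ℝ)..T, z t ^ 2 ∧
      b ≤ (volume (Start (pw z k) c T)).toReal ∧ m = Fi (pw z k) b - c * b ∧
      Fi (pw z k) T = c * (volume (Start (pw z k) c T)).toReal + m + R := by
  have hpc := pw_cont hz hk
  obtain ⟨hm, b, hb, hmax, hsub, hid⟩ := identity hpc hT c
  refine ⟨Fi (pw z k) b - c * b, _, b, ?_, ?_, hb.1, hb.2, off_le hz hk hc hT, ?_, rfl, hid⟩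
  · have := hmax 0 ⟨le_rfl, hT⟩
    simpa [Fi] using this
  · exact setIntegral_nonneg (measurableSet_Icc.diff hm) fun t _ => pw_nn hz k t
  · have h1 : volume (Ico (0:ℝ) b) ≤ volume (Start (pw z k) c T) := measure_mono hsub
    have hfin : volume (Start (pw z k) c T) ≠ ⊤ :=
      ne_top_of_le_ne_top (by simp) (measure_mono (start_subset _ c T))
    have h2 := ENNReal.toReal_mono hfin h1
    rw [Real.volume_Ico, sub_zero, ENNReal.toReal_ofReal hb.1] at h2
    exact h2

lemma expo_neg {k δ : ℝ} (hk : 1 < k) (hδ : δ < k) : 1 - k + δ * (1 - 1 / k) < 0 := by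
  have hk0 : 0 < k := by linarith
  have h1 : 0 < 1 - 1 / k := by rw [sub_pos, div_lt_one hk0]; exact hk
  have h2 : δ * (1 - 1 / k) < k * (1 - 1 / k) := mul_lt_mul_of_pos_right hδ h1
  have h3 : k * (1 - 1 / k) = k - 1 := by field_simp
  linarith

lemma log_pow_small {E : ℝ} (hE : E < 0) (C ε : ℝ) (hε : 0 < ε) :
    ∀ᶠ T : ℝ in atTop, C * Real.log T ^ E ≤ ε := by
  have h1 : Tendsto (fun T : ℝ => C * Real.log T ^ E) atTop (𝓝 (C * 0)) := by
    refine Tendsto.const_mul C ?_
    have := (tendsto_rpow_neg_atTop (neg_pos.2 hE)).comp Real.tendsto_log_atTop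
    rw [neg_neg] at this
    exact this
  rw [mul_zero] at h1
  exact (h1.eventually (ge_mem_nhds hε))

/-- (1) The law of the maximal averages. -/
theorem law (hz : Data z) {k δ ε : ℝ} (hk : 1 < k) (hδ : δ < k) (hε : 0 < ε) :
    ∀ᶠ T : ℝ in atTop, ∀ c : ℝ, (∀ s : ℝ, 0 < s → s ≤ T → Fi (pw z k) s / s ≤ c) →
      c ≤ Fi (pw z k) T / T * Real.log T ^ δ →
      |c * (volume (Start (pw z k) c T)).toReal / Fi (pw z k) T - 1| ≤ ε := by
  have hk0 : 0 < k := by linarith
  obtain ⟨C, hC, h2⟩ := hz.second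
  obtain ⟨c0, hc0, hlow⟩ := hz.lower k hk.le
  have hE := expo_neg hk hδ
  filter_upwards [h2, hlow, log_pow_small hE (C * c0 ^ (-(1 / k))) ε hε, eventually_gt_atTop 1,
    Real.tendsto_log_atTop.eventually_gt_atTop 1] with T h2 hlow hsm hT1 hL c hs hc
  have hT0 : 0 < T := by linarith
  set L := Real.log T with hLdef
  have hL0 : 0 < L := by linarith
  set F := Fi (pw z k) T with hF
  have hlow' : c0 * (T * L ^ (k ^ 2)) ≤ F := hlow
  have hFpos : 0 < F := lt_of_lt_of_le (by positivity) hlow'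
  have hcF : F / T ≤ c := hs T hT0 le_rfl
  have hM : 0 < F / T := by positivity
  have hcpos : 0 < c := hM.trans_le hcF
  obtain ⟨m, R, b, hm0, hR0, hb0, hbT, hR, -, hm, hid⟩ := decomp hz hk hcpos hT0.le
  have hm' : m = 0 := by
    rcases hb0.eq_or_lt with h | h
    · rw [hm, ← h]; simp [Fi]
    · have := hs b h hbT
      rw [div_le_iff₀ h] at this
      linarith
  rw [hm', add_zero] at hid
  have e1 : c * (volume (Start (pw z k) c T)).toReal / F - 1 = -(R / F) := by
    rw [← hF] at hid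
    have : c * (volume (Start (pw z k) c T)).toReal = F - R := by linarith
    rw [this]
    field_simp
    ring
  rw [e1, abs_neg, abs_of_nonneg (by positivity)]
  refine le_trans ?_ hsm
  rw [div_le_iff₀ hFpos]
  refine hR.trans ?_
  have hexp : 0 ≤ 1 - 1 / k := by rw [sub_nonneg, div_le_one hk0]; exact hk.le
  have hI0 : 0 ≤ ∫ t in (0:ℝ)..T, z t ^ 2 :=
    intervalIntegral.integral_nonneg hT0.le fun t _ => sq_nonneg _
  have s1 : c ^ (1 - 1 / k) ≤ (F / T * L ^ δ) ^ (1 - 1 / k) :=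
    Real.rpow_le_rpow hcpos.le hc hexp
  have s2 : (F / T * L ^ δ) ^ (1 - 1 / k)
      = (F / T) * (F / T) ^ (-(1 / k)) * L ^ (δ * (1 - 1 / k)) := by
    rw [Real.mul_rpow hM.le (by positivity), ← Real.rpow_mul hL0.le,
      show (1 - 1 / k) = 1 + (-(1 / k)) by ring, Real.rpow_add hM, Real.rpow_one]
  have s3 : (F / T) ^ (-(1 / k)) ≤ c0 ^ (-(1 / k)) * L ^ (-k) := by
    have : c0 * L ^ (k ^ 2) ≤ F / T := by
      rw [le_div_iff₀ hT0]; linarith
    calc (F / T) ^ (-(1 / k)) ≤ (c0 * L ^ (k ^ 2)) ^ (-(1 / k)) :=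
          Real.rpow_le_rpow_of_nonpos (by positivity) this (by
            rw [neg_nonpos]; positivity)
      _ = c0 ^ (-(1 / k)) * L ^ (-k) := by
          rw [Real.mul_rpow hc0.le (by positivity), ← Real.rpow_mul hL0.le]
          congr 2
          field_simp
  calc c ^ (1 - 1 / k) * ∫ t in (0:ℝ)..T, z t ^ 2
      ≤ ((F / T) * (c0 ^ (-(1 / k)) * L ^ (-k)) * L ^ (δ * (1 - 1 / k))) * (C * (T * L)) := by
        refine mul_le_mul (s1.trans (s2.le.trans ?_)) h2 hI0 (by positivity)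
        gcongr
    _ = C * c0 ^ (-(1 / k)) * L ^ (1 - k + δ * (1 - 1 / k)) * F := by
        rw [show 1 - k + δ * (1 - 1 / k) = 1 + (-k) + δ * (1 - 1 / k) by ring,
          Real.rpow_add hL0, Real.rpow_add hL0, Real.rpow_one]
        field_simp

/-- Absorbing `F(η T)`. -/
lemma iterate {f : ℝ → ℝ} (hc : Continuous f) (hf : ∀ t, 0 ≤ f t) {A η p : ℝ} (hA : 0 ≤ A)
    (hη : 0 < η) (hη1 : η < 1) (hp : 0 ≤ p)
    (h : ∀ᶠ T : ℝ in atTop, Fi f T ≤ A * (T * Real.log T ^ p) + Fi f (η * T)) :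
    ∃ D : ℝ, 0 ≤ D ∧ ∀ᶠ T : ℝ in atTop, Fi f T ≤ A / (1 - η) * (T * Real.log T ^ p) + D := by
  obtain ⟨T1, hT1⟩ := eventually_atTop.1 h
  set T2 := max T1 3 with hT2
  have hT2' : 3 ≤ T2 := le_max_right _ _
  have h1η : 0 < 1 - η := by linarith
  refine ⟨Fi f T2, Fi_nn hf (by linarith), ?_⟩
  have key : ∀ n : ℕ, ∀ T : ℝ, 1 ≤ T → T * η ^ n ≤ T2 →
      Fi f T ≤ A / (1 - η) * (T * Real.log T ^ p) + Fi f T2 := by
    intro n
    induction n with
    | zero =>
      intro T hT h0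
      have hl : 0 ≤ Real.log T := Real.log_nonneg hT
      have : 0 ≤ A / (1 - η) * (T * Real.log T ^ p) := by positivity
      have h2 := Fi_mono hc hf (show T ≤ T2 by simpa using h0)
      linarith
    | succ n ih =>
      intro T hT h0
      have hl : 0 ≤ Real.log T := Real.log_nonneg hT
      rcases le_total T T2 with h | h
      · have : 0 ≤ A / (1 - η) * (T * Real.log T ^ p) := by positivity
        have h2 := Fi_mono hc hf h
        linarith
      · have h3 := hT1 T ((le_max_left _ _).trans h)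
        rcases le_total 1 (η * T) with h1 | h1
        · have h4 := ih (η * T) h1 (by
            calc η * T * η ^ n = T * η ^ (n + 1) := by ring
              _ ≤ T2 := h0)
          have h5 : Real.log (η * T) ≤ Real.log T :=
            Real.log_le_log (by linarith) (by nlinarith)
          have h6 : Real.log (η * T) ^ p ≤ Real.log T ^ p :=
            Real.rpow_le_rpow (Real.log_nonneg h1) h5 hp
          have h7 : A / (1 - η) * (η * T * Real.log (η * T) ^ p)
              ≤ A / (1 - η) * (η * T * Real.log T ^ p) := by gcongr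
          have h8 : A * (T * Real.log T ^ p) + A / (1 - η) * (η * T * Real.log T ^ p)
              = A / (1 - η) * (T * Real.log T ^ p) := by
            field_simp
            ring
          linarith
        · have h4 := Fi_mono hc hf (show η * T ≤ T2 by linarith)
          have h9 : A * (T * Real.log T ^ p) ≤ A / (1 - η) * (T * Real.log T ^ p) := by
            refine mul_le_mul_of_nonneg_right ?_ (by positivity)
            rw [le_div_iff₀ h1η]
            nlinarith
          linarith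
  filter_upwards [eventually_ge_atTop 1] with T hT
  obtain ⟨n, hn⟩ := exists_pow_lt_of_lt_one (show 0 < T2 / T by positivity) hη1
  refine key n T hT ?_
  have := (lt_div_iff₀ (by linarith : 0 < T)).1 hn
  linarith

/-- The maximal average level and the size of the set. -/
def V (z : ℝ → ℝ) (k δ T : ℝ) : ℝ :=
  (volume (Start (pw z k) (Real.log T ^ (k ^ 2 + δ)) T)).toReal

lemma V_nn (z : ℝ → ℝ) (k δ T : ℝ) : 0 ≤ V z k δ T := ENNReal.toReal_nonneg

/-- The decomposition at level `(log T)^(k^2+δ)`. -/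
lemma decomp' (hz : Data z) {k δ ε : ℝ} (hk : 1 < k) (hδ : δ < k) (hε : 0 < ε) :
    ∀ᶠ T : ℝ in atTop, ∃ m R b : ℝ, 0 ≤ m ∧ 0 ≤ R ∧ 0 ≤ b ∧ b ≤ T ∧
      R ≤ ε * (T * Real.log T ^ (k ^ 2)) ∧ b ≤ V z k δ T ∧
      m = Fi (pw z k) b - Real.log T ^ (k ^ 2 + δ) * b ∧
      Fi (pw z k) T = Real.log T ^ (k ^ 2 + δ) * V z k δ T + m + R := by
  have hk0 : 0 < k := by linarith
  obtain ⟨C, hC, h2⟩ := hz.second
  have hE := expo_neg hk hδ
  filter_upwards [h2, log_pow_small hE C ε hε, eventually_gt_atTop 1,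
    Real.tendsto_log_atTop.eventually_gt_atTop 1] with T h2 hsm hT1 hL
  have hT0 : 0 < T := by linarith
  set L := Real.log T with hLdef
  have hL0 : 0 < L := by linarith
  obtain ⟨m, R, b, hm0, hR0, hb0, hbT, hR, hbV, hm, hid⟩ :=
    decomp hz hk (show 0 < L ^ (k ^ 2 + δ) by positivity) hT0.le
  refine ⟨m, R, b, hm0, hR0, hb0, hbT, hR.trans ?_, hbV, hm, hid⟩
  rw [← Real.rpow_mul hL0.le]
  calc L ^ ((k ^ 2 + δ) * (1 - 1 / k)) * ∫ t in (0:ℝ)..T, z t ^ 2
      ≤ L ^ ((k ^ 2 + δ) * (1 - 1 / k)) * (C * (T * L)) := by gcongr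
    _ = C * L ^ (1 - k + δ * (1 - 1 / k)) * (T * L ^ (k ^ 2)) := by
        have e : (k ^ 2 + δ) * (1 - 1 / k) + 1 = (1 - k + δ * (1 - 1 / k)) + k ^ 2 := by
          field_simp
          ring
        have e2 : L ^ ((k ^ 2 + δ) * (1 - 1 / k)) * L
            = L ^ (1 - k + δ * (1 - 1 / k)) * L ^ (k ^ 2) := by
          rw [← Real.rpow_add hL0, ← e, Real.rpow_add hL0, Real.rpow_one]
        linear_combination (C * T) * e2
    _ ≤ ε * (T * L ^ (k ^ 2)) := by gcongr

/-- From a bound for the moments there is no boundary term. -/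
lemma no_max (hz : Data z) {k δ K : ℝ} (hk : 1 < k) (hδ0 : 0 < δ)
    (hK : ∀ᶠ T : ℝ in atTop, Fi (pw z k) T ≤ K * (T * Real.log T ^ (k ^ 2))) :
    ∀ᶠ T : ℝ in atTop, ∀ s : ℝ, 0 ≤ s → s ≤ T →
      Fi (pw z k) s - Real.log T ^ (k ^ 2 + δ) * s ≤ 0 := by
  have hpc := pw_cont hz hk
  obtain ⟨T1, hT1⟩ := eventually_atTop.1 hK
  set T2 := max T1 3 with hT2
  have hT2' : 3 ≤ T2 := le_max_right _ _
  obtain ⟨K0, hK0⟩ : ∃ K0 : ℝ, ∀ x ∈ Icc (0:ℝ) T2, pw z k x ≤ K0 := by
    obtain ⟨K0, h⟩ := (isCompact_Icc (a := (0:ℝ)) (b := T2)).exists_bound_of_continuousOn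
      hpc.continuousOn
    exact ⟨K0, fun x hx => (le_abs_self _).trans (h x hx)⟩
  filter_upwards [eventually_ge_atTop T2, Real.tendsto_log_atTop.eventually_ge_atTop 1,
    (tendsto_rpow_atTop hδ0).comp Real.tendsto_log_atTop |>.eventually_ge_atTop (max K K0)]
    with T hT hL hbig s hs0 hsT
  set L := Real.log T with hLdef
  have hL0 : 0 < L := by linarith
  have hbig' : max K K0 ≤ L ^ δ := hbig
  have hLk : 1 ≤ L ^ (k ^ 2) := Real.one_le_rpow hL (by positivity)
  have hsplit : L ^ (k ^ 2 + δ) = L ^ (k ^ 2) * L ^ δ := Real.rpow_add hL0 _ _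
  have hLδ : 0 ≤ L ^ δ := by positivity
  rcases le_total s T2 with h | h
  · have h1 : Fi (pw z k) s ≤ K0 * s := by
      have : Fi (pw z k) s ≤ ∫ t in (0:ℝ)..s, K0 :=
        intervalIntegral.integral_mono_on hs0 (hpc.intervalIntegrable _ _)
          intervalIntegrable_const fun x hx => hK0 x ⟨hx.1, hx.2.trans h⟩
      simpa [mul_comm] using this
    have h2 : K0 ≤ L ^ (k ^ 2 + δ) := by
      rw [hsplit]
      have : K0 ≤ L ^ δ := (le_max_right _ _).trans hbig'
      nlinarith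
    nlinarith
  · have h1 := hT1 s ((le_max_left _ _).trans h)
    have hs1 : 1 ≤ s := by linarith
    have h3 : Real.log s ^ (k ^ 2) ≤ L ^ (k ^ 2) :=
      Real.rpow_le_rpow (Real.log_nonneg hs1) (Real.log_le_log (by linarith) hsT) (by positivity)
    have h4 : K ≤ L ^ δ := (le_max_left _ _).trans hbig'
    have hls : 0 ≤ Real.log s ^ (k ^ 2) := Real.rpow_nonneg (Real.log_nonneg hs1) _
    have h5 : K * (s * Real.log s ^ (k ^ 2)) ≤ L ^ δ * (s * L ^ (k ^ 2)) := by
      refine mul_le_mul h4 (by gcongr) (by positivity) hLδ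
    rw [hsplit]
    nlinarith

/-- Upper bounds for the moments from upper bounds for the set. -/
lemma up (hz : Data z) {k δ A η : ℝ} (hk : 1 < k) (hδ0 : 0 < δ) (hδ : δ < k) (hA : 0 ≤ A)
    (hη : 0 < η) (hη1 : η < 1)
    (hV : ∀ᶠ T : ℝ in atTop, Real.log T ^ δ * V z k δ T / T ≤ A) :
    ∃ D : ℝ, 0 ≤ D ∧ ∀ᶠ T : ℝ in atTop,
      Fi (pw z k) T ≤ (A + η) / (1 - η) * (T * Real.log T ^ (k ^ 2)) + D := by
  have hpc := pw_cont hz hk
  refine iterate hpc (pw_nn hz k) (by positivity) hη hη1 (by positivity) ?_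
  filter_upwards [decomp' hz hk hδ hη, hV, eventually_gt_atTop 1,
    Real.tendsto_log_atTop.eventually_ge_atTop 1,
    (tendsto_rpow_atTop hδ0).comp Real.tendsto_log_atTop |>.eventually_ge_atTop (A / η)]
    with T ⟨m, R, b, hm0, hR0, hb0, hbT, hR, hbV, hm, hid⟩ hV hT hL hbig
  have hT0 : 0 < T := by linarith
  set L := Real.log T with hLdef
  have hL0 : 0 < L := by linarith
  have hbig' : A / η ≤ L ^ δ := hbig
  have hLδ : 0 < L ^ δ := by positivity
  rw [div_le_iff₀ hT0] at hV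
  have hb : b ≤ η * T := by
    have h1 : L ^ δ * b ≤ A * T := (mul_le_mul_of_nonneg_left hbV hLδ.le).trans hV
    have h2 : A ≤ L ^ δ * η := by rwa [div_le_iff₀ hη] at hbig'
    have h3 : L ^ δ * b ≤ L ^ δ * (η * T) := by nlinarith
    exact le_of_mul_le_mul_left h3 hLδ
  have hmb : m ≤ Fi (pw z k) (η * T) := by
    have h1 := Fi_mono hpc (pw_nn hz k) hb
    have h2 : 0 ≤ L ^ (k ^ 2 + δ) * b := by positivity
    linarith
  have hcV : L ^ (k ^ 2 + δ) * V z k δ T ≤ A * (T * L ^ (k ^ 2)) := by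
    rw [Real.rpow_add hL0]
    have : 0 < L ^ (k ^ 2) := by positivity
    nlinarith
  rw [hid]
  nlinarith

/-- (3) Order of magnitude. -/
theorem order_iff (hz : Data z) {k δ : ℝ} (hk : 1 < k) (hδ0 : 0 < δ) (hδ : δ < k) :
    (∃ K : ℝ, ∀ᶠ T : ℝ in atTop, Fi (pw z k) T / T ≤ K * Real.log T ^ (k ^ 2)) ↔
    (∃ K : ℝ, ∀ᶠ T : ℝ in atTop, V z k δ T ≤ K * (T / Real.log T ^ δ)) := by
  constructor
  · rintro ⟨K, hK⟩
    refine ⟨K, ?_⟩
    filter_upwards [decomp' hz hk hδ one_pos, hK, eventually_gt_atTop 1,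
      Real.tendsto_log_atTop.eventually_ge_atTop 1]
      with T ⟨m, R, b, hm0, hR0, hb0, hbT, hR, hbV, hm, hid⟩ hV hT hL
    have hT0 : 0 < T := by linarith
    have hL0 : 0 < Real.log T := by linarith
    rw [div_le_iff₀ hT0] at hV
    have h1 : Real.log T ^ (k ^ 2 + δ) * V z k δ T ≤ K * Real.log T ^ (k ^ 2) * T := by linarith
    rw [Real.rpow_add hL0] at h1
    have h2 : 0 < Real.log T ^ (k ^ 2) := by positivity
    have h3 : 0 < Real.log T ^ δ := by positivity
    rw [← mul_div_assoc, le_div_iff₀ h3]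
    have h4 : Real.log T ^ (k ^ 2) * (V z k δ T * Real.log T ^ δ)
        ≤ Real.log T ^ (k ^ 2) * (K * T) := by linarith
    exact le_of_mul_le_mul_left h4 h2
  · rintro ⟨K, hK⟩
    have hV : ∀ᶠ T : ℝ in atTop, Real.log T ^ δ * V z k δ T / T ≤ max K 0 := by
      filter_upwards [hK, eventually_gt_atTop 1, Real.tendsto_log_atTop.eventually_ge_atTop 1]
        with T hK hT hL
      have hT0 : 0 < T := by linarith
      have hL0 : 0 < Real.log T := by linarith
      have h3 : 0 < Real.log T ^ δ := by positivity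
      rw [← mul_div_assoc, le_div_iff₀ h3] at hK
      rw [div_le_iff₀ hT0]
      have := mul_le_mul_of_nonneg_right (le_max_left K 0) hT0.le
      linarith
    obtain ⟨D, hD, hup⟩ := up hz hk hδ0 hδ (le_max_right K 0) (by norm_num : (0:ℝ) < 1 / 2)
      (by norm_num) hV
    refine ⟨(max K 0 + 1 / 2) / (1 - 1 / 2) + D, ?_⟩
    filter_upwards [hup, eventually_gt_atTop 1, Real.tendsto_log_atTop.eventually_ge_atTop 1]
      with T hup hT hL
    have hT0 : 0 < T := by linarith
    have hLk : 1 ≤ Real.log T ^ (k ^ 2) := Real.one_le_rpow hL (by positivity)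
    rw [div_le_iff₀ hT0]
    have : D ≤ D * (T * Real.log T ^ (k ^ 2)) := by
      have : 1 ≤ T * Real.log T ^ (k ^ 2) := by nlinarith
      nlinarith
    nlinarith

/-- (2) The asymptotic formula. -/
theorem asymp_iff (hz : Data z) {k δ a : ℝ} (hk : 1 < k) (hδ0 : 0 < δ) (hδ : δ < k) :
    Tendsto (fun T : ℝ => Fi (pw z k) T / T / Real.log T ^ (k ^ 2)) atTop (𝓝 a) ↔
    Tendsto (fun T : ℝ => Real.log T ^ δ * V z k δ T / T) atTop (𝓝 a) := by
  -- the two quantities
  have base : ∀ ε : ℝ, 0 < ε → ∀ᶠ T : ℝ in atTop,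
      ∃ m b : ℝ, 0 ≤ m ∧ 0 ≤ b ∧ b ≤ T ∧ m = Fi (pw z k) b - Real.log T ^ (k ^ 2 + δ) * b ∧
      Real.log T ^ δ * V z k δ T / T ≤ Fi (pw z k) T / T / Real.log T ^ (k ^ 2) ∧
      Fi (pw z k) T / T / Real.log T ^ (k ^ 2) ≤
        Real.log T ^ δ * V z k δ T / T + m / T / Real.log T ^ (k ^ 2) + ε := by
    intro ε hε
    filter_upwards [decomp' hz hk hδ hε, eventually_gt_atTop 1,
      Real.tendsto_log_atTop.eventually_ge_atTop 1]
      with T ⟨m, R, b, hm0, hR0, hb0, hbT, hR, hbV, hm, hid⟩ hT hL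
    have hT0 : 0 < T := by linarith
    have hL0 : 0 < Real.log T := by linarith
    have h2 : 0 < Real.log T ^ (k ^ 2) := by positivity
    have e : Fi (pw z k) T / T / Real.log T ^ (k ^ 2) =
        Real.log T ^ δ * V z k δ T / T + m / T / Real.log T ^ (k ^ 2) +
          R / T / Real.log T ^ (k ^ 2) := by
      rw [hid, Real.rpow_add hL0]
      field_simp
    have hm1 : 0 ≤ m / T / Real.log T ^ (k ^ 2) := by positivity
    have hR1 : 0 ≤ R / T / Real.log T ^ (k ^ 2) := by positivity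
    have hR2 : R / T / Real.log T ^ (k ^ 2) ≤ ε := by
      rw [div_div, div_le_iff₀ (by positivity)]
      exact hR
    exact ⟨m, b, hm0, hb0, hbT, hm, by linarith, by linarith⟩
  constructor
  · intro h
    have hK : ∀ᶠ T : ℝ in atTop, Fi (pw z k) T ≤ (|a| + 1) * (T * Real.log T ^ (k ^ 2)) := by
      have h1 : ∀ᶠ T : ℝ in atTop, Fi (pw z k) T / T / Real.log T ^ (k ^ 2) ≤ |a| + 1 := by
        refine h.eventually (ge_mem_nhds ?_)
        have := le_abs_self a
        linarith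
      filter_upwards [h1, eventually_gt_atTop 1, Real.tendsto_log_atTop.eventually_ge_atTop 1]
        with T h1 hT hL
      have hT0 : 0 < T := by linarith
      have hL0 : 0 < Real.log T := by linarith
      rwa [div_div, div_le_iff₀ (by positivity)] at h1
    have hno := no_max hz hk hδ0 hK
    rw [Metric.tendsto_nhds] at h ⊢
    intro ε hε
    filter_upwards [h (ε / 2) (by positivity), base (ε / 2) (by positivity), hno,
      eventually_gt_atTop 1] with T h1 ⟨m, b, hm0, hb0, hbT, hm, hlo, hhi⟩ hno hT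
    have hm' : m = 0 := le_antisymm (by rw [hm]; exact hno b hb0 hbT) hm0
    rw [hm'] at hhi
    simp only [zero_div, add_zero] at hhi
    rw [Real.dist_eq, abs_lt] at h1 ⊢
    constructor <;> linarith
  · intro h
    have ha : 0 ≤ a := by
      refine ge_of_tendsto h ?_
      filter_upwards [eventually_gt_atTop 1, Real.tendsto_log_atTop.eventually_ge_atTop 1]
        with T hT hL
      have := V_nn z k δ T
      have hL0 : 0 < Real.log T := by linarith
      positivity
    rw [Metric.tendsto_nhds]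
    intro ε hε
    -- choose parameters
    set A := a + ε / 4 with hA
    have hA0 : 0 < A := by linarith
    set η := min (1 / 2) (ε / (4 * (A + 1 + ε))) with hη
    have hη0 : 0 < η := lt_min (by norm_num) (by positivity)
    have hη1 : η ≤ 1 / 2 := min_le_left _ _
    have hη2 : η * (4 * (A + 1 + ε)) ≤ ε := by
      have := min_le_right (1 / 2) (ε / (4 * (A + 1 + ε)))
      rwa [← hη, le_div_iff₀ (by positivity)] at this
    have hV : ∀ᶠ T : ℝ in atTop, Real.log T ^ δ * V z k δ T / T ≤ A :=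
      h.eventually (ge_mem_nhds (by linarith))
    obtain ⟨D, hD, hup⟩ := up hz hk hδ0 hδ hA0.le hη0 (by linarith) hV
    have hq : (A + η) / (1 - η) ≤ a + ε / 2 := by
      rw [div_le_iff₀ (by linarith)]
      nlinarith
    have hDs : ∀ᶠ T : ℝ in atTop, 4 * D / ε < T := eventually_gt_atTop _
    rw [Metric.tendsto_nhds] at h
    filter_upwards [h ε hε, base ε hε, hup, hDs, eventually_gt_atTop 1,
      Real.tendsto_log_atTop.eventually_ge_atTop 1]
      with T h1 ⟨m, b, hm0, hb0, hbT, hm, hlo, hhi⟩ hup hDs hT hL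
    have hT0 : 0 < T := by linarith
    have hL0 : 0 < Real.log T := by linarith
    have hLk : 1 ≤ Real.log T ^ (k ^ 2) := Real.one_le_rpow hL (by positivity)
    rw [Real.dist_eq, abs_lt] at h1 ⊢
    refine ⟨by linarith, ?_⟩
    have hD2 : D < ε / 4 * (T * Real.log T ^ (k ^ 2)) := by
      rw [div_lt_iff₀ hε] at hDs
      have : T ≤ T * Real.log T ^ (k ^ 2) := by nlinarith
      nlinarith
    have hfin : Fi (pw z k) T < (a + ε) * (T * Real.log T ^ (k ^ 2)) := by
      have : (A + η) / (1 - η) * (T * Real.log T ^ (k ^ 2)) ≤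
        (a + ε / 2) * (T * Real.log T ^ (k ^ 2)) := by gcongr
      nlinarith
    have : Fi (pw z k) T / T / Real.log T ^ (k ^ 2) < a + ε := by
      rw [div_div, div_lt_iff₀ (by positivity)]
      exact hfin
    linarith

end

end Pool.Agent.TH982.MA
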