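import Mathlib

/-!
# The rising sun identity on a finite interval

For a continuous `f` and a level `c`, let `B` be the set of `t ∈ [0,T]` that start some window
`[t,t+h] ⊆ [0,T]` on which the average of `f` exceeds `c`.  Then
`∫_0^T f = c |B| + max_{[0,T]} (F(s) - c s) + ∫_{[0,T] \ B} f`.
-/

open MeasureTheory Set Filter Topology

namespace Pool.Agent.TH982.MA

/-- Times `t ≥ 0` that start a window inside `[0,T]` on which the mean of `f` exceeds `c`. -/
def Start (f : ℝ → ℝ) (c T : ℝ) : Set ℝ :=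
  {t | 0 ≤ t ∧ ∃ h : ℝ, 0 < h ∧ t + h ≤ T ∧ c < (∫ u in t..(t + h), f u) / h}

section core

variable {g : ℝ → ℝ} {G J : ℝ → ℝ} {T : ℝ}

/-- The core identity. -/
theorem core (hg : Continuous g) (hT : 0 ≤ T) (hG : ∀ x, HasDerivAt G (g x) x)
    (hJ : ∀ x ∈ Icc (0:ℝ) T, IsGreatest (G '' Icc x T) (J x)) :
    IsClosed (Icc (0:ℝ) T ∩ {x | J x = G x}) ∧
    ∫ t in Icc (0:ℝ) T ∩ {x | J x = G x}, g t = G T - J 0 := by
  have hGc : Continuous G := continuous_iff_continuousAt.2 fun x => (hG x).continuousAt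
  obtain ⟨M, hM⟩ : ∃ M : ℝ, ∀ x ∈ Icc (0:ℝ) T, |g x| ≤ M :=
    (isCompact_Icc (a := (0:ℝ)) (b := T)).exists_bound_of_continuousOn hg.continuousOn |>.imp
      fun M h x hx => by simpa [Real.norm_eq_abs] using h x hx
  have hM0 : 0 ≤ M := (abs_nonneg _).trans (hM 0 ⟨le_rfl, hT⟩)
  -- G is Lipschitz on [0,T]
  have hGL : ∀ x ∈ Icc (0:ℝ) T, ∀ y ∈ Icc (0:ℝ) T, |G x - G y| ≤ M * |x - y| := by
    intro x hx y hy
    have := (convex_Icc (0:ℝ) T).norm_image_sub_le_of_norm_hasDerivWithin_le (f := G) (f' := g)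
      (C := M) (fun z _ => (hG z).hasDerivWithinAt) (fun z hz => by
        simpa [Real.norm_eq_abs] using hM z hz) hy hx
    simpa [Real.norm_eq_abs] using this
  have hJle : ∀ x ∈ Icc (0:ℝ) T, G x ≤ J x := fun x hx =>
    (hJ x hx).2 ⟨x, ⟨le_rfl, hx.2⟩, rfl⟩
  have hJanti : ∀ x ∈ Icc (0:ℝ) T, ∀ y ∈ Icc (0:ℝ) T, x ≤ y → J y ≤ J x := by
    intro x hx y hy hxy
    obtain ⟨s, hs, hs'⟩ := (hJ y hy).1
    rw [← hs']
    exact (hJ x hx).2 ⟨s, ⟨hxy.trans hs.1, hs.2⟩, rfl⟩
  have hJL1 : ∀ x ∈ Icc (0:ℝ) T, ∀ y ∈ Icc (0:ℝ) T, x ≤ y → J x - J y ≤ M * |x - y| := by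
    intro x hx y hy hxy
    obtain ⟨s, hs, hs'⟩ := (hJ x hx).1
    rcases le_total y s with h | h
    · have : J x ≤ J y := by
        rw [← hs']; exact (hJ y hy).2 ⟨s, ⟨h, hs.2⟩, rfl⟩
      have := mul_nonneg hM0 (abs_nonneg (x - y))
      linarith
    · have h1 := (abs_le.1 (hGL s ⟨hx.1.trans hs.1, hs.2⟩ y hy)).2
      have h2 := hJle y hy
      have h3 : |s - y| ≤ |x - y| := by
        rw [abs_of_nonpos (by linarith), abs_of_nonpos (by linarith)]
        linarith [hs.1]
      have h4 := mul_le_mul_of_nonneg_left h3 hM0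
      rw [← hs']
      linarith
  have hJL : ∀ x ∈ Icc (0:ℝ) T, ∀ y ∈ Icc (0:ℝ) T, |J x - J y| ≤ M * |x - y| := by
    intro x hx y hy
    rcases le_total x y with h | h
    · rw [abs_le]
      have h1 := hJL1 x hx y hy h
      have h2 := hJanti x hx y hy h
      have := mul_nonneg hM0 (abs_nonneg (x - y))
      constructor <;> linarith
    · rw [abs_le]
      have h1 := hJL1 y hy x hx h
      have h2 := hJanti y hy x hx h
      rw [abs_sub_comm] at h1
      have := mul_nonneg hM0 (abs_nonneg (x - y))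
      constructor <;> linarith
  have hlip : LipschitzOnWith ⟨M, hM0⟩ J (uIcc 0 T) := by
    rw [uIcc_of_le hT]
    refine LipschitzOnWith.of_dist_le_mul fun x hx y hy => ?_
    rw [Real.dist_eq, Real.dist_eq]
    exact hJL x hx y hy
  have hAC : AbsolutelyContinuousOnInterval J 0 T := hlip.absolutelyContinuousOnInterval
  have hJc : ContinuousOn J (Icc 0 T) := by
    have := hlip.continuousOn
    rwa [uIcc_of_le hT] at this
  have hcl : IsClosed (Icc (0:ℝ) T ∩ {x | J x = G x}) := by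
    have : Icc (0:ℝ) T ∩ {x | J x = G x} = Icc (0:ℝ) T ∩ (fun x => J x - G x) ⁻¹' {0} := by
      ext x; simp [sub_eq_zero]
    rw [this]
    exact (hJc.sub hGc.continuousOn).preimage_isClosed_of_isClosed isClosed_Icc isClosed_singleton
  refine ⟨hcl, ?_⟩
  have hJT : J T = G T := by
    obtain ⟨s, hs, hs'⟩ := (hJ T ⟨hT, le_rfl⟩).1
    have : s = T := le_antisymm hs.2 hs.1
    rw [← hs', this]
  rw [← hJT, ← hAC.integral_deriv_eq_sub, intervalIntegral.integral_of_le hT,
    ← integral_Icc_eq_integral_Ioc, ← integral_indicator hcl.measurableSet,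
    ← integral_indicator measurableSet_Icc]
  refine integral_congr_ae ?_
  have n0 : ∀ᵐ x : ℝ, x ≠ 0 := by simp [ae_iff, measure_singleton]
  have nT : ∀ᵐ x : ℝ, x ≠ T := by simp [ae_iff, measure_singleton]
  filter_upwards [hAC.ae_differentiableAt, n0, nT] with x hx h0 h1
  by_cases hxI : x ∈ Icc (0:ℝ) T
  swap
  · rw [indicator_of_notMem hxI, indicator_of_notMem (fun h => hxI h.1)]
  have hx0 : 0 < x := lt_of_le_of_ne hxI.1 (Ne.symm h0)
  have hxT : x < T := lt_of_le_of_ne hxI.2 h1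
  have hd := hx (by rwa [uIcc_of_le hT])
  rw [indicator_of_mem hxI]
  by_cases hA : J x = G x
  · rw [indicator_of_mem (show x ∈ Icc (0:ℝ) T ∩ {x | J x = G x} from ⟨hxI, hA⟩)]
    have hmin : IsLocalMin (fun y => J y - G y) x := by
      filter_upwards [Icc_mem_nhds hx0 hxT] with y hy
      have := hJle y hy
      simp only [hA, sub_self]
      linarith
    have := hmin.hasDerivAt_eq_zero (hd.hasDerivAt.sub (hG x))
    linarith
  · rw [indicator_of_notMem (fun h : x ∈ Icc (0:ℝ) T ∩ {x | J x = G x} => hA h.2)]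
    obtain ⟨s, hs, hs'⟩ := (hJ x hxI).1
    have hxs : x < s := by
      refine lt_of_le_of_ne hs.1 ?_
      rintro rfl
      exact hA hs'.symm
    have hconst : ∀ y ∈ Icc x s, J y = J x := by
      intro y hy
      have hy' : y ∈ Icc (0:ℝ) T := ⟨hxI.1.trans hy.1, hy.2.trans hs.2⟩
      refine le_antisymm (hJanti x hxI y hy' hy.1) ?_
      rw [← hs']
      exact (hJ y hy').2 ⟨s, ⟨hy.2, hs.2⟩, rfl⟩
    have e1 : HasDerivWithinAt J (deriv J x) (Icc x s) x := hd.hasDerivAt.hasDerivWithinAt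
    have e2 : HasDerivWithinAt J 0 (Icc x s) x :=
      (hasDerivWithinAt_const x (Icc x s) (J x)).congr (fun y hy => hconst y hy) rfl
    have hu : UniqueDiffWithinAt ℝ (Icc x s) x := (uniqueDiffOn_Icc hxs) x ⟨le_rfl, hxs.le⟩
    exact (hu.eq_deriv _ e1 e2).symm

end core

section main

variable {f : ℝ → ℝ} {T : ℝ}

theorem start_subset (f : ℝ → ℝ) (c T : ℝ) : Start f c T ⊆ Ico 0 T := by
  rintro t ⟨h0, h, hh, hT, -⟩
  exact ⟨h0, by linarith⟩

/-- The rising sun identity. -/
theorem identity (hf : Continuous f) (hT : 0 ≤ T) (c : ℝ) :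
    MeasurableSet (Start f c T) ∧
    ∃ b ∈ Icc (0:ℝ) T,
      (∀ s ∈ Icc (0:ℝ) T, (∫ u in (0:ℝ)..s, f u) - c * s ≤ (∫ u in (0:ℝ)..b, f u) - c * b) ∧
      Ico 0 b ⊆ Start f c T ∧
      ∫ u in (0:ℝ)..T, f u = c * (volume (Start f c T)).toReal
        + ((∫ u in (0:ℝ)..b, f u) - c * b) + ∫ t in Icc (0:ℝ) T \ Start f c T, f t := by
  set G : ℝ → ℝ := fun t => (∫ u in (0:ℝ)..t, f u) - c * t with hGdef
  have hG : ∀ x, HasDerivAt G (f x - c) x := fun x => by
    have h1 := intervalIntegral.integral_hasDerivAt_right (hf.intervalIntegrable 0 x)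
      (hf.stronglyMeasurableAtFilter _ _) hf.continuousAt
    have h2 : HasDerivAt (fun t : ℝ => c * t) c x := by
      simpa using (hasDerivAt_id x).const_mul c
    exact h1.sub h2
  have hGc : Continuous G := continuous_iff_continuousAt.2 fun x => (hG x).continuousAt
  have hex : ∀ x ∈ Icc (0:ℝ) T, IsGreatest (G '' Icc x T) (sSup (G '' Icc x T)) := fun x hx =>
    (isCompact_Icc.image hGc).isGreatest_sSup ((nonempty_Icc.2 hx.2).image _)
  obtain ⟨hcl, hint⟩ := core (g := fun t => f t - c) (hf.sub continuous_const) hT hG hex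
  set A : Set ℝ := Icc (0:ℝ) T ∩ {x | sSup (G '' Icc x T) = G x} with hA
  have hGsub : ∀ x s : ℝ, G s - G x = (∫ u in x..s, f u) - c * (s - x) := by
    intro x s
    have := intervalIntegral.integral_add_adjacent_intervals (hf.intervalIntegrable 0 x)
      (hf.intervalIntegrable x s) (μ := volume)
    simp only [hGdef]
    linarith
  have hmemA : ∀ x ∈ Icc (0:ℝ) T, x ∈ A ↔ ∀ s ∈ Icc x T, G s ≤ G x := by
    intro x hx
    constructor
    · rintro ⟨-, h⟩ s hs
      have := (hex x hx).2 ⟨s, hs, rfl⟩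
      rw [h] at this
      exact this
    · intro h
      refine ⟨hx, le_antisymm ?_ ((hex x hx).2 ⟨x, ⟨le_rfl, hx.2⟩, rfl⟩)⟩
      obtain ⟨s, hs, hs'⟩ := (hex x hx).1
      rw [← hs']
      exact h s hs
  have hdiff : Icc (0:ℝ) T \ Start f c T = A := by
    ext x
    constructor
    · rintro ⟨hx, hn⟩
      rw [hmemA x hx]
      intro s hs
      rcases hs.1.eq_or_lt with h | h
      · rw [h]
      by_contra hlt
      push Not at hlt
      apply hn
      refine ⟨hx.1, s - x, by linarith, by linarith [hs.2], ?_⟩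
      rw [lt_div_iff₀ (by linarith), show x + (s - x) = s by ring]
      have := hGsub x s
      linarith
    · intro hx
      have hxI : x ∈ Icc (0:ℝ) T := hx.1
      refine ⟨hxI, ?_⟩
      rintro ⟨-, h, hh, hT', hlt⟩
      rw [lt_div_iff₀ hh] at hlt
      have h1 := (hmemA x hxI).1 hx (x + h) ⟨by linarith, hT'⟩
      have h2 := hGsub x (x + h)
      rw [show x + h - x = h by ring] at h2
      linarith
  have hBeq : Start f c T = Icc (0:ℝ) T \ A := by
    rw [← hdiff, sdiff_sdiff_right_self, eq_comm, inter_eq_right]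
    exact (start_subset f c T).trans Ico_subset_Icc_self
  have hBm : MeasurableSet (Start f c T) := by
    rw [hBeq]; exact measurableSet_Icc.diff hcl.measurableSet
  refine ⟨hBm, ?_⟩
  -- least maximiser
  obtain ⟨b, hb⟩ : ∃ b, IsLeast {x ∈ Icc (0:ℝ) T | ∀ s ∈ Icc (0:ℝ) T, G s ≤ G x} b := by
    have hne : {x ∈ Icc (0:ℝ) T | ∀ s ∈ Icc (0:ℝ) T, G s ≤ G x}.Nonempty := by
      obtain ⟨x, hx, hx'⟩ := isCompact_Icc.exists_isMaxOn (nonempty_Icc.2 hT) hGc.continuousOn
      exact ⟨x, hx, fun s hs => hx' hs⟩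
    have hco : IsCompact {x ∈ Icc (0:ℝ) T | ∀ s ∈ Icc (0:ℝ) T, G s ≤ G x} := by
      have : {x ∈ Icc (0:ℝ) T | ∀ s ∈ Icc (0:ℝ) T, G s ≤ G x}
          = Icc (0:ℝ) T ∩ ⋂ s ∈ Icc (0:ℝ) T, {x | G s ≤ G x} := by
        ext x; simp
      rw [this]
      exact isCompact_Icc.inter_right (isClosed_biInter fun s _ => isClosed_le continuous_const hGc)
    exact hco.exists_isLeast hne
  refine ⟨b, hb.1.1, hb.1.2, ?_, ?_⟩
  · intro x hx
    have hxI : x ∈ Icc (0:ℝ) T := ⟨hx.1, hx.2.le.trans hb.1.1.2⟩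
    rw [hBeq]
    refine ⟨hxI, fun hxA => ?_⟩
    have h1 := (hmemA x hxI).1 hxA b ⟨hx.2.le, hb.1.1.2⟩
    have h2 : b ≤ x := hb.2 ⟨hxI, fun s hs => (hb.1.2 s hs).trans h1⟩
    exact absurd hx.2 (not_lt.2 h2)
  · have hmax : sSup (G '' Icc 0 T) = G b := by
      obtain ⟨s, hs, hs'⟩ := (hex 0 ⟨le_rfl, hT⟩).1
      refine le_antisymm ?_ ((hex 0 ⟨le_rfl, hT⟩).2 ⟨b, hb.1.1, rfl⟩)
      rw [← hs']
      exact hb.1.2 s hs
    rw [hdiff]
    have hAfin : volume A ≠ ⊤ := by
      refine ne_top_of_le_ne_top ?_ (measure_mono (hA ▸ inter_subset_left : A ⊆ Icc (0:ℝ) T))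
      simp
    have hfi : IntegrableOn f A := by
      refine IntegrableOn.mono_set ?_ (hA ▸ inter_subset_left : A ⊆ Icc (0:ℝ) T)
      exact hf.continuousOn.integrableOn_compact isCompact_Icc
    have e1 : ∫ t in A, (f t - c) = (∫ t in A, f t) - c * (volume A).toReal := by
      rw [integral_sub hfi (integrableOn_const hAfin), setIntegral_const, smul_eq_mul, mul_comm c]
      rfl
    have e2 : (volume (Start f c T)).toReal + (volume A).toReal = T := by
      have hsub : A ⊆ Icc (0:ℝ) T := hA ▸ inter_subset_left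
      rw [hBeq, measure_sdiff hsub hcl.measurableSet.nullMeasurableSet hAfin,
        ENNReal.toReal_sub_of_le (measure_mono hsub) (by simp)]
      simp [hT]
    have e3 := hint
    rw [e1, hmax] at e3
    have e4 : G T = (∫ u in (0:ℝ)..T, f u) - c * T := rfl
    have e5 : G b = (∫ u in (0:ℝ)..b, f u) - c * b := rfl
    rw [← e5]
    have e6 : c * T = c * (volume (Start f c T)).toReal + c * (volume A).toReal := by
      rw [← mul_add, e2]
    linarith

/-- Off the set, the function itself is at most `c` (except possibly at the end point). -/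
theorem le_off (hf : Continuous f) {c t : ℝ} (ht : t ∈ Icc (0:ℝ) T \ Start f c T) (htT : t < T) :
    f t ≤ c := by
  by_contra h
  push Not at h
  -- f > c near t, so the mean over a short window exceeds c
  have hev : ∀ᶠ u in 𝓝 t, c < f u := hf.continuousAt.eventually (lt_mem_nhds h)
  obtain ⟨ε, hε, hball⟩ := Metric.eventually_nhds_iff.1 hev
  set h' := min (ε / 2) (T - t) with hh'
  have hpos : 0 < h' := lt_min (by positivity) (by linarith)
  apply ht.2
  refine ⟨ht.1.1, h', hpos, by have := min_le_right (ε / 2) (T - t); linarith, ?_⟩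
  rw [lt_div_iff₀ hpos]
  have e1 : c * h' = ∫ u in t..(t + h'), c := by simp; ring
  rw [e1]
  refine intervalIntegral.integral_lt_integral_of_continuousOn_of_le_of_exists_lt (by linarith)
    continuousOn_const hf.continuousOn (fun x hx => ?_) ⟨t, ⟨le_rfl, by linarith⟩, h⟩
  refine (hball ?_).le
  rw [Real.dist_eq, abs_of_pos (by linarith [hx.1])]
  have := min_le_left (ε / 2) (T - t)
  linarith [hx.2]

end main

end Pool.Agent.TH982.MA
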