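import Pool.Agent.TH982.MA.Abs
import Pool.Agent.W181.Mom.App3
import Pool.Agent.W186.SD.MainD
import Pool.Agent.W479.BU.Msz

/-!
# Maximal averages and moments: the zeta function
-/

open MeasureTheory Set Filter Topology

namespace Pool.Agent.TH982.MA

noncomputable section

/-- `|zeta(1/2+it)|` -/
def zz (t : ℝ) : ℝ := ‖riemannZeta (1 / 2 + t * Complex.I)‖

lemma zz_cont : Continuous zz := Pool.Agent.H306R2.zeta_line_continuous.norm

lemma zz_second : ∃ C : ℝ, 0 < C ∧ ∀ᶠ T : ℝ in atTop,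
    ∫ t in (0:ℝ)..T, zz t ^ 2 ≤ C * (T * Real.log T) := by
  obtain ⟨C, T0, hC, hT0, h⟩ := Pool.Agent.W479.BU.ms_half Pool.Agent.W186.SD.san
  have hc : Continuous fun t => zz t ^ 2 := zz_cont.pow 2
  have hn : ∀ t, 0 ≤ zz t ^ 2 := fun t => sq_nonneg _
  obtain ⟨D, hD, hit⟩ := iterate (f := fun t => zz t ^ 2) hc hn (A := C / 4) (η := 1 / 16)
    (p := 1) (by positivity) (by norm_num) (by norm_num) zero_le_one (by
      filter_upwards [eventually_ge_atTop (4 * T0)] with T hT
      have h1 := h (T / 4) (1 / 2) (by linarith) le_rfl (by norm_num)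
      have e1 : ∫ t in (T / 4 / 4)..(4 * (T / 4)),
          ‖riemannZeta (((1 / 2 : ℝ) : ℂ) + t * Complex.I)‖ ^ 2
          = ∫ t in (1 / 16 * T)..T, zz t ^ 2 := by
        rw [show T / 4 / 4 = 1 / 16 * T by ring, show 4 * (T / 4) = T by ring]
        refine intervalIntegral.integral_congr fun t _ => ?_
        simp [zz]
      rw [e1] at h1
      have h2 := intervalIntegral.integral_add_adjacent_intervals
        (hc.intervalIntegrable 0 (1 / 16 * T)) (hc.intervalIntegrable (1 / 16 * T) T) (μ := volume)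
      have hT' : 0 < T := by linarith
      have h3 : Real.log (T / 4) ≤ Real.log T := Real.log_le_log (by linarith) (by linarith)
      have h4 : C * (T / 4) * Real.log (T / 4) ≤ C * (T / 4) * Real.log T := by gcongr
      unfold Fi
      rw [Real.rpow_one]
      linarith)
  refine ⟨C / 4 / (1 - 1 / 16) + D, by positivity, ?_⟩
  filter_upwards [hit, eventually_ge_atTop 1, Real.tendsto_log_atTop.eventually_ge_atTop 1]
    with T hit hT hL
  rw [Real.rpow_one] at hit
  have : D ≤ D * (T * Real.log T) := by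
    have : 1 ≤ T * Real.log T := by nlinarith
    nlinarith
  have e : (C / 4 / (1 - 1 / 16) + D) * (T * Real.log T) =
    C / 4 / (1 - 1 / 16) * (T * Real.log T) + D * (T * Real.log T) := by ring
  rw [e]
  exact hit.trans (by linarith)

lemma zz_lower (k : ℝ) (hk : 1 ≤ k) : ∃ c : ℝ, 0 < c ∧ ∀ᶠ T : ℝ in atTop,
    c * (T * Real.log T ^ (k ^ 2)) ≤ ∫ t in (0:ℝ)..T, zz t ^ (2 * k) := by
  obtain ⟨c, hc, B, hB, h⟩ := Pool.Agent.W181.Mom.all_real k hk
  have hk0 : 0 < k := by linarith
  have hcont : Continuous fun t => zz t ^ (2 * k) :=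
    zz_cont.rpow_const fun _ => Or.inr (by linarith)
  refine ⟨c / 2 * (1 / 2) ^ (k ^ 2), by positivity, ?_⟩
  have t1 : Tendsto (fun T : ℝ => 1 / 2 * T) atTop atTop :=
    tendsto_id.const_mul_atTop (by norm_num)
  have hlogB : ∀ᶠ T : ℝ in atTop, Real.log T ^ B ≤ T := by
    have h1 := (isLittleO_log_rpow_rpow_atTop B (zero_lt_one)).bound (zero_lt_one)
    filter_upwards [h1, eventually_gt_atTop 1] with T h1 hT
    rw [Real.rpow_one, one_mul, Real.norm_eq_abs, Real.norm_eq_abs] at h1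
    have h2 : |T| = T := abs_of_pos (by linarith)
    rw [h2] at h1
    exact (le_abs_self _).trans h1
  filter_upwards [t1.eventually h, t1.eventually hlogB, eventually_ge_atTop 4] with T h hB hT
  have h1 := h (1 / 2 * T) hB
  rw [show 1 / 2 * T + 1 / 2 * T = T by ring] at h1
  have hT0 : 0 < T := by linarith
  have h2 := intervalIntegral.integral_add_adjacent_intervals
    (hcont.intervalIntegrable 0 (1 / 2 * T)) (hcont.intervalIntegrable (1 / 2 * T) T) (μ := volume)
  have h3 : 0 ≤ ∫ t in (0:ℝ)..(1 / 2 * T), zz t ^ (2 * k) :=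
    intervalIntegral.integral_nonneg (by positivity) fun t _ => Real.rpow_nonneg (norm_nonneg _) _
  have h4 : 1 / 2 * Real.log T ≤ Real.log (1 / 2 * T) := by
    have e1 : Real.log (1 / 2 * T) = Real.log T - Real.log 2 := by
      rw [one_div, ← div_eq_inv_mul, Real.log_div hT0.ne' (by norm_num)]
    have e2 : 2 * Real.log 2 ≤ Real.log T := by
      have : Real.log 4 ≤ Real.log T := Real.log_le_log (by norm_num) hT
      have e : Real.log 4 = 2 * Real.log 2 := by
        rw [show (4:ℝ) = 2 ^ 2 by norm_num, Real.log_pow]; norm_num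
      linarith
    linarith
  have hlog : 0 ≤ Real.log T := Real.log_nonneg (by linarith)
  have h5 : (1 / 2 * Real.log T) ^ (k ^ 2) ≤ Real.log (1 / 2 * T) ^ (k ^ 2) :=
    Real.rpow_le_rpow (by positivity) h4 (by positivity)
  rw [Real.mul_rpow (by norm_num) hlog] at h5
  have h6 : c * (1 / 2 * T * ((1 / 2) ^ (k ^ 2) * Real.log T ^ (k ^ 2))) ≤
    c * (1 / 2 * T * Real.log (1 / 2 * T) ^ (k ^ 2)) := by gcongr
  have h7 : c / 2 * (1 / 2) ^ (k ^ 2) * (T * Real.log T ^ (k ^ 2))
    = c * (1 / 2 * T * ((1 / 2) ^ (k ^ 2) * Real.log T ^ (k ^ 2))) := by ring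
  have h8 : ∫ t in (1 / 2 * T)..T, zz t ^ (2 * k)
    = ∫ t in (1 / 2 * T)..T, ‖riemannZeta (1 / 2 + t * Complex.I)‖ ^ (2 * k) := rfl
  rw [h7]
  linarith

theorem zz_data : Data zz := ⟨zz_cont, fun _ => norm_nonneg _, zz_second, zz_lower⟩

end

end Pool.Agent.TH982.MA
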